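import Pool.Agent.H33.Corner

namespace Pool.Agent.Results.MP_59e64e_co.Q1

open Matrix ComplexOrder Pool.Agent.H33.Corner Module

/-- The real vector space of Hermitian matrices. -/
abbrev H (n : ℕ) := selfAdjoint (Matrix (Fin n) (Fin n) ℂ)

variable {n : ℕ}

/-- The trace pairing. -/
noncomputable def tr (X Y : H n) : ℝ := (X.1 * Y.1).trace.re

def ConvexCorner (C : Set (H n)) : Prop :=
  C.Nonempty ∧ IsClosed C ∧ Convex ℝ C ∧ (∀ A ∈ C, A.1.PosSemidef) ∧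
    ∀ A ∈ C, ∀ B : H n, B.1.PosSemidef → (A - B).1.PosSemidef → B ∈ C

def antiBlocker (C : Set (H n)) : Set (H n) := {Z | Z.1.PosSemidef ∧ ∀ X ∈ C, tr X Z ≤ 1}

def IsVertex (C : Set (H n)) (X : H n) : Prop :=
  X ∈ C ∧ X ∈ frontier C ∧
    {W | ∀ (Y : H n) (α : ℝ), (∀ A ∈ C, tr A Y ≤ α) → tr X Y = α → tr W Y = α} = {X}

def IsFacet (C F : Set (H n)) : Prop :=
  ∃ (Y : H n) (α : ℝ), (∀ A ∈ C, tr A Y ≤ α) ∧ F = {A | A ∈ C ∧ tr A Y = α} ∧
    F ⊆ frontier C ∧ F.Nonempty ∧ finrank ℝ (affineSpan ℝ F).direction = n ^ 2 - 1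

instance : Module.Finite ℝ (H n) :=
  Module.Finite.of_surjective (realPart (A := Mat n)) fun x => ⟨x.1, by simp⟩

theorem finrank_H : finrank ℝ (H n) = n ^ 2 := by
  let f : Mat n →ₗ[ℝ] H n × H n := (realPart (A := Mat n)).prod (imaginaryPart (A := Mat n))
  have hf : Function.Bijective f := by
    constructor
    · intro a b h
      have h1 : realPart a = realPart b := congrArg Prod.fst h
      have h2 : imaginaryPart a = imaginaryPart b := congrArg Prod.snd h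
      rw [← realPart_add_I_smul_imaginaryPart a, h1, h2, realPart_add_I_smul_imaginaryPart]
    · rintro ⟨a, b⟩
      exact ⟨a.1 + Complex.I • b.1, by simp [f]⟩
  have := (LinearEquiv.ofBijective f hf).finrank_eq
  rw [finrank_prod, Module.finrank_matrix] at this
  simp at this
  nlinarith

noncomputable def B : LinearMap.BilinForm ℝ (H n) :=
  LinearMap.mk₂ ℝ tr (fun a b y => ip_add a.1 b.1 y.1) (fun c a y => ip_smul c a.1 y.1)
    (fun y a b => ip_add' a.1 b.1 y.1) (fun c y a => ip_smul' c a.1 y.1)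

theorem tr_comm (X Y : H n) : tr X Y = tr Y X := ip_comm X.1 Y.1

theorem span_top (S : Set (H n)) (h : ∀ W, (∀ Z ∈ S, tr W Z = 0) → W = 0) :
    Submodule.span ℝ S = ⊤ := by
  have hr : (B (n := n)).IsRefl := fun a b e => (tr_comm b a).trans e
  have := LinearMap.BilinForm.finrank_add_finrank_orthogonal hr (Submodule.span ℝ S)
  have e : B.orthogonal (Submodule.span ℝ S) = ⊥ := by
    rw [eq_bot_iff]
    intro W hW
    exact h W fun Z hZ => (tr_comm W Z).trans (hW Z (Submodule.subset_span hZ))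
  rw [e, finrank_bot] at this
  exact Submodule.eq_top_of_finrank_eq (le_antisymm (Submodule.finrank_le _) (by omega))

theorem result (n : ℕ) (_hn : 1 ≤ n) (C : Set (H n)) (hC : ConvexCorner C) (X : H n)
    (hX : IsVertex C X) (hX0 : X ≠ 0) :
    IsFacet (antiBlocker C) {Z | Z ∈ antiBlocker C ∧ tr X Z = 1} := by
  obtain ⟨-, -, hconv, hpsd, hher⟩ := hC
  obtain ⟨hXC, -, hv⟩ := hX
  have hyp : Hyp (Subtype.val '' C) X.1 := by
    refine ⟨⟨X, hXC, rfl⟩, ?_, ?_, ?_⟩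
    · rintro _ ⟨A, hA, rfl⟩; exact hpsd A hA
    · rintro _ ⟨A, hA, rfl⟩ ε h0 h1
      exact ⟨_, hconv hXC hA (sub_nonneg.2 h1) h0 (by ring), rfl⟩
    · rintro _ ⟨A, hA, rfl⟩ D h1 h2
      exact ⟨⟨D, h1.1⟩, hher A hA ⟨D, h1.1⟩ h1 h2, rfl⟩
  let N : Set (H n) := {Y | ∀ A ∈ C, tr A Y ≤ tr X Y}
  have hN : ∀ Y : H n, Y ∈ N ↔ Nor (Subtype.val '' C) X.1 Y.1 := fun Y =>
    ⟨fun h => ⟨Y.2, by rintro _ ⟨A, hA, rfl⟩; exact h A hA⟩, fun h A hA => h.2 _ ⟨A, hA, rfl⟩⟩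
  have vert : ∀ W, (∀ Z ∈ N, tr W Z = 0) → W = 0 := by
    intro W hW
    have : X + W ∈ ({X} : Set (H n)) := by
      rw [← hv]
      rintro Y α h1 rfl
      exact (ip_add X.1 W.1 Y.1).trans (by rw [show ip W.1 Y.1 = 0 from hW Y h1, add_zero]; rfl)
    simpa using this
  have Nsmul : ∀ c : ℝ, 0 ≤ c → ∀ Y ∈ N, c • Y ∈ N := fun c hc Y hY A hA => by
    have e : ∀ D : H n, tr D (c • Y) = c * tr D Y := fun D => ip_smul' c Y.1 D.1
    rw [e, e]; exact mul_le_mul_of_nonneg_left (hY A hA) hc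
  have Nadd : ∀ Y ∈ N, ∀ Z ∈ N, Y + Z ∈ N := fun Y hY Z hZ =>
    (hN _).2 (((hN _).1 hY).add ((hN _).1 hZ))
  have N0 : (0 : H n) ∈ N := fun A _ => by simp [tr]
  have hspan : ∀ D : H n, ∃ a ∈ N, ∃ b ∈ N, D = a - b := by
    intro D
    have hD : D ∈ Submodule.span ℝ N := by rw [span_top N vert]; trivial
    induction hD using Submodule.span_induction with
    | mem x hx => exact ⟨x, hx, 0, N0, by simp⟩
    | zero => exact ⟨0, N0, 0, N0, by simp⟩
    | add x y _ _ hx hy =>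
      obtain ⟨a, ha, b, hb, rfl⟩ := hx
      obtain ⟨a', ha', b', hb', rfl⟩ := hy
      exact ⟨_, Nadd a ha a' ha', _, Nadd b hb b' hb', by abel⟩
    | smul c x _ hx =>
      obtain ⟨a, ha, b, hb, rfl⟩ := hx
      rcases le_total 0 c with h | h
      · exact ⟨_, Nsmul c h a ha, _, Nsmul c h b hb, smul_sub _ _ _⟩
      · exact ⟨_, Nsmul (-c) (neg_nonneg.2 h) b hb, _, Nsmul (-c) (neg_nonneg.2 h) a ha, by module⟩
  let M : Set (H n) := {Z | Z.1.PosSemidef ∧ Z ∈ N}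
  have hM : ∀ W, (∀ Z ∈ M, tr W Z = 0) → W = 0 := by
    intro W hW
    refine vert W fun Y hY => core hyp (fun e => hX0 (Subtype.ext e)) ?_ W.2 ?_ Y.1 ((hN Y).1 hY)
    · intro D hD
      obtain ⟨a, ha, b, hb, e⟩ := hspan ⟨D, hD⟩
      exact ⟨a.1, b.1, (hN a).1 ha, (hN b).1 hb, congrArg Subtype.val e⟩
    · intro Z h1 h2
      exact hW ⟨Z, h1.1⟩ ⟨h1, (hN ⟨Z, h1.1⟩).2 h2⟩
  have C0 : (0 : H n) ∈ C := hher X hXC 0 PosSemidef.zero (by simpa using hpsd X hXC)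
  have Mpos : ∀ Z ∈ M, 0 ≤ tr X Z := fun Z hZ => by simpa [tr] using hZ.2 0 C0
  set F := {Z | Z ∈ antiBlocker C ∧ tr X Z = 1} with hF
  have toF : ∀ Z ∈ M, 0 < tr X Z → (tr X Z)⁻¹ • Z ∈ F := by
    intro Z hZ hp
    have e : tr X ((tr X Z)⁻¹ • Z) = 1 :=
      (ip_smul' _ Z.1 X.1).trans (inv_mul_cancel₀ hp.ne')
    exact ⟨⟨hZ.1.smul (inv_nonneg.2 hp.le), fun A hA =>
      e ▸ Nsmul _ (inv_nonneg.2 hp.le) Z hZ.2 A hA⟩, e⟩
  obtain ⟨Z1, hZ1, hne⟩ : ∃ Z ∈ M, tr X Z ≠ 0 := by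
    by_contra hn
    push Not at hn
    exact hX0 (hM X hn)
  obtain ⟨Z0, hZ0⟩ : F.Nonempty := ⟨_, toF Z1 hZ1 (lt_of_le_of_ne (Mpos _ hZ1) hne.symm)⟩
  have Z0M : Z0 ∈ M := ⟨hZ0.1.1, fun A hA => hZ0.2 ▸ hZ0.1.2 A hA⟩
  refine ⟨X, 1, fun A hA => tr_comm X A ▸ hA.2 X hXC, ?_, ?_, ⟨Z0, hZ0⟩, ?_⟩
  · ext Z; simp only [hF, Set.mem_ofPred_eq, tr_comm X Z]
  · intro Z hZ
    refine ⟨subset_closure hZ.1, fun hi => ?_⟩
    have hc : Continuous fun t : ℝ => t • Z :=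
      continuous_induced_rng.2 (continuous_id.smul (continuous_const (y := Z.1)))
    have h1 : ∀ᶠ t in nhds (1 : ℝ), t • Z ∈ antiBlocker C :=
      hc.continuousAt (by simpa using mem_interior_iff_mem_nhds.1 hi)
    obtain ⟨t, ht, ht1⟩ := ((h1.filter_mono nhdsWithin_le_nhds).and
      (self_mem_nhdsWithin (s := Set.Ioi (1 : ℝ)))).exists
    have := ht.2 X hXC
    rw [show tr X (t • Z) = t * tr X Z from ip_smul' t Z.1 X.1, hZ.2, mul_one] at this
    exact absurd ht1 (not_lt.2 this)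
  · rw [direction_affineSpan]
    have hle : vectorSpan ℝ F ≤ LinearMap.ker (B X) := by
      rw [vectorSpan_def, Submodule.span_le]
      rintro _ ⟨a, ha, b, hb, rfl⟩
      exact (ip_sub' a.1 b.1 X.1).trans (sub_eq_zero.2 (ha.2.trans hb.2.symm))
    have hker : finrank ℝ (LinearMap.ker (B X)) + 1 = n ^ 2 := by
      rw [← finrank_H]
      refine Module.Dual.finrank_ker_add_one_of_ne_zero fun e => ?_
      have : tr X Z0 = 0 := LinearMap.congr_fun e Z0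
      rw [hZ0.2] at this
      exact one_ne_zero this
    have htop : vectorSpan ℝ F ⊔ Submodule.span ℝ {Z0} = ⊤ := by
      rw [eq_top_iff, ← span_top M hM, Submodule.span_le]
      intro Z hZ
      have e : tr X (Z0 + Z) = 1 + tr X Z := (ip_add' Z0.1 Z.1 X.1).trans (by rw [← hZ0.2]; rfl)
      have hp : 0 < tr X (Z0 + Z) := by rw [e]; linarith [Mpos Z hZ]
      have h1 := toF (Z0 + Z) ⟨Z0M.1.add hZ.1, Nadd _ Z0M.2 _ hZ.2⟩ hp
      have h2 := vsub_mem_vectorSpan ℝ h1 hZ0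
      have : Z = tr X (Z0 + Z) • ((tr X (Z0 + Z))⁻¹ • (Z0 + Z) -ᵥ Z0) + tr X Z • Z0 := by
        rw [vsub_eq_sub, smul_sub, smul_smul, mul_inv_cancel₀ hp.ne', e]; module
      rw [this]
      exact Submodule.add_mem_sup (Submodule.smul_mem _ _ h2)
        (Submodule.smul_mem _ _ (Submodule.mem_span_singleton_self _))
    have h1 := Submodule.finrank_mono hle
    have h2 := Submodule.finrank_add_le_finrank_add_finrank (vectorSpan ℝ F)
      (Submodule.span ℝ {Z0})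
    have h3 : finrank ℝ (Submodule.span ℝ {Z0}) ≤ 1 := by
      simpa using finrank_span_le_card (R := ℝ) ({Z0} : Set (H n))
    rw [htop, finrank_top, finrank_H] at h2
    omega

end Pool.Agent.Results.MP_59e64e_co.Q1
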